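import Pool.Agent.H948.SF.Stm

/-!
# DENS: positive density of the vertices of type 0 (project SF, helper948)
-/

set_option autoImplicit false

namespace Pool.Agent.H400.SF

open Pool.Agent.H948.SF
open Set Filter
open scoped ENNReal NNReal Nat Topology

/-! ### types -/

theorem st_cons (e M : ℕ) (a : Fin (e + 2)) (w : W e) :
    st e M (a :: w) = match st e M w with
      | 0 => if a.val ≤ 1 then 1 else 0
      | 1 => if a = 0 then 2 else 0
      | 2 => if a = 0 then 3 else 0
      | s + 3 => if s + 2 = M then 2 else s + 4 := rfl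

theorem st_le (e M : ℕ) (hM : 2 ≤ M) (w : W e) : st e M w ≤ M + 1 := by
  induction w with
  | nil => exact Nat.zero_le _
  | cons a w ih =>
    rw [st_cons]
    rcases h : st e M w with _ | _ | _ | s
    · dsimp only
      split_ifs <;> omega
    · dsimp only
      split_ifs <;> omega
    · dsimp only
      split_ifs <;> omega
    · have h1 : s + 3 ≤ M + 1 := by omega
      change (if s + 2 = M then 2 else s + 4) ≤ M + 1
      split_ifs <;> omega

theorem one_ne_zero' (e : ℕ) : (1 : Fin (e + 2)) ≠ 0 := by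
  intro h
  have := congrArg Fin.val h
  simp at this

theorem to_zero (e M : ℕ) : ∀ (k : ℕ) (w : W e), (∃ s, st e M w = s + 3 ∧
    M = s + 2 + k) → ∃ q : W e, q.length ≤ k + 2 ∧ st e M (q ++ w) = 0 := by
  intro k
  induction k with
  | zero =>
    rintro w ⟨s, hs, hM'⟩
    refine ⟨[1, 0], le_rfl, ?_⟩
    have h1 : st e M (0 :: w) = 2 := by
      rw [st_cons, hs]
      dsimp only
      rw [if_pos (by omega)]
    change st e M (1 :: 0 :: w) = 0
    rw [st_cons, h1]
    dsimp only
    rw [if_neg (one_ne_zero' e)]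
  | succ k ih =>
    rintro w ⟨s, hs, hM'⟩
    have h1 : st e M (0 :: w) = (s + 1) + 3 := by
      rw [st_cons, hs]
      dsimp only
      rw [if_neg (by omega)]
    obtain ⟨q, hq1, hq2⟩ := ih (0 :: w) ⟨s + 1, h1, by omega⟩
    refine ⟨q ++ [0], ?_, ?_⟩
    · rw [List.length_append, List.length_singleton]
      omega
    · rw [List.append_assoc]
      exact hq2

theorem exists_zero (e M : ℕ) (hM : 2 ≤ M) (w : W e) :
    ∃ q : W e, q.length ≤ M ∧ st e M (q ++ w) = 0 := by
  have hle := st_le e M hM w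
  rcases h : st e M w with _ | _ | _ | s
  · exact ⟨[], Nat.zero_le _, h⟩
  · refine ⟨[1], by rw [List.length_singleton]; omega, ?_⟩
    change st e M (1 :: w) = 0
    rw [st_cons, h]
    dsimp only
    rw [if_neg (one_ne_zero' e)]
  · refine ⟨[1], by rw [List.length_singleton]; omega, ?_⟩
    change st e M (1 :: w) = 0
    rw [st_cons, h]
    dsimp only
    rw [if_neg (one_ne_zero' e)]
  · rw [h] at hle
    obtain ⟨q, h1, h2⟩ := to_zero e M (M - (s + 2)) w ⟨s, h, by omega⟩
    exact ⟨q, by omega, h2⟩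

/-! ### spheres and balls -/

theorem exists_closer {V : Type} {G : SimpleGraph V} (hG : G.Connected) {o x : V} {m : ℕ}
    (h : G.dist o x = m + 1) : ∃ y, G.Adj y x ∧ G.dist o y = m := by
  obtain ⟨p, hp⟩ := hG.exists_walk_length_eq_dist x o
  rw [SimpleGraph.dist_comm, h] at hp
  cases p with
  | nil =>
    rw [SimpleGraph.Walk.length_nil] at hp
    omega
  | @cons _ y _ hxy q =>
    refine ⟨y, hxy.symm, ?_⟩
    rw [SimpleGraph.Walk.length_cons] at hp
    have h1 : G.dist y o ≤ m := by
      have := SimpleGraph.dist_le q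
      omega
    have h2 := hG.dist_triangle (u := o) (v := y) (w := x)
    have h3 : G.dist y x = 1 := SimpleGraph.dist_eq_one_iff_adj.2 hxy.symm
    rw [SimpleGraph.dist_comm] at h1
    omega

theorem sphere_bound {V : Type} {G : SimpleGraph V} (hG : G.Connected) (e : ℕ)
    (hdeg : ∀ x, (G.neighborSet x).encard = (e : ℕ∞) + 3) (o : V) : ∀ n : ℕ,
    ∃ F : Finset V, (∀ x, x ∈ F ↔ G.dist o x = n) ∧ F.card ≤ 2 * (e + 2) ^ n := by
  classical
  have hdeg' : ∀ x, ∃ N : Finset V, (∀ y, y ∈ N ↔ G.Adj x y) ∧ N.card = e + 3 := by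
    intro x
    have h1 : (G.neighborSet x).encard = ((e + 3 : ℕ) : ℕ∞) := by
      rw [hdeg x]
      push_cast
      rfl
    have h2 : (G.neighborSet x).Finite := Set.finite_of_encard_eq_coe h1
    refine ⟨h2.toFinset, fun y => ?_, ?_⟩
    · rw [Set.Finite.mem_toFinset]
      exact Iff.rfl
    · rw [h2.encard_eq_coe_toFinset_card] at h1
      exact_mod_cast h1
  choose N hN hNc using hdeg'
  intro n
  induction n with
  | zero =>
    refine ⟨{o}, fun x => ?_, ?_⟩
    · rw [Finset.mem_singleton, hG.dist_eq_zero_iff]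
      exact eq_comm
    · rw [Finset.card_singleton, pow_zero]
      omega
  | succ n ih =>
    obtain ⟨F, hF, hFc⟩ := ih
    refine ⟨F.biUnion fun y => (N y).filter fun x => G.dist o x = n + 1, fun x => ?_, ?_⟩
    · rw [Finset.mem_biUnion]
      constructor
      · rintro ⟨y, -, hx⟩
        exact (Finset.mem_filter.1 hx).2
      · intro hx
        obtain ⟨y, hy1, hy2⟩ := exists_closer hG hx
        exact ⟨y, (hF y).2 hy2, Finset.mem_filter.2 ⟨(hN y x).2 hy1, hx⟩⟩
    · rcases n with _ | n
      · -- the sphere of radius one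
        have h1 : (F.biUnion fun y => (N y).filter fun x => G.dist o x = 0 + 1) ⊆ N o := by
          intro x hx
          obtain ⟨y, hy, hx⟩ := Finset.mem_biUnion.1 hx
          exact (hN o x).2 (SimpleGraph.dist_eq_one_iff_adj.1 (Finset.mem_filter.1 hx).2)
        have h2 := Finset.card_le_card h1
        rw [hNc] at h2
        exact h2.trans (by rw [zero_add, pow_one]; omega)
      · have h1 : ∀ y ∈ F, ((N y).filter fun x => G.dist o x = n + 1 + 1).card ≤ e + 2 := by
          intro y hy
          obtain ⟨z, hz1, hz2⟩ := exists_closer hG ((hF y).1 hy)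
          have h2 : ((N y).filter fun x => G.dist o x = n + 1 + 1) ⊂ N y := by
            refine Finset.ssubset_iff_subset_ne.2 ⟨Finset.filter_subset _ _, fun h => ?_⟩
            have h3 : z ∈ N y := (hN y z).2 hz1.symm
            rw [← h] at h3
            have h4 := (Finset.mem_filter.1 h3).2
            omega
          have h3 := Finset.card_lt_card h2
          rw [hNc] at h3
          omega
        refine (Finset.card_biUnion_le_card_mul _ _ _ h1).trans ?_
        calc F.card * (e + 2) ≤ (2 * (e + 2) ^ (n + 1)) * (e + 2) := Nat.mul_le_mul_right _ hFc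
          _ = 2 * (e + 2) ^ (n + 1 + 1) := by ring

theorem ball_bound {V : Type} {G : SimpleGraph V} (hG : G.Connected) (e : ℕ)
    (hdeg : ∀ x, (G.neighborSet x).encard = (e : ℕ∞) + 3) (o : V) (n : ℕ) :
    (ball G o n).Finite ∧ (ball G o n).ncard ≤ 4 * (e + 2) ^ n := by
  classical
  have key : ∃ F : Finset V, (∀ x, x ∈ F ↔ G.dist o x ≤ n) ∧ F.card ≤ 4 * (e + 2) ^ n := by
    induction n with
    | zero =>
      obtain ⟨F, hF, hFc⟩ := sphere_bound hG e hdeg o 0
      refine ⟨F, fun x => ?_, hFc.trans (Nat.mul_le_mul_right _ (by norm_num))⟩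
      rw [hF]
      omega
    | succ n ih =>
      obtain ⟨F, hF, hFc⟩ := ih
      obtain ⟨F', hF', hFc'⟩ := sphere_bound hG e hdeg o (n + 1)
      refine ⟨F ∪ F', fun x => ?_, (Finset.card_union_le _ _).trans ?_⟩
      · rw [Finset.mem_union, hF, hF']
        omega
      · have h1 : 4 * (e + 2) ^ n ≤ 2 * (e + 2) ^ (n + 1) := by
          rw [pow_succ]
          have := Nat.zero_le ((e + 2) ^ n * e)
          nlinarith
        calc F.card + F'.card ≤ 2 * (e + 2) ^ (n + 1) + 2 * (e + 2) ^ (n + 1) :=
              Nat.add_le_add (hFc.trans h1) hFc'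
          _ = 4 * (e + 2) ^ (n + 1) := by ring
  obtain ⟨F, hF, hFc⟩ := key
  have h1 : ball G o n = (F : Set V) := by
    ext x
    rw [Finset.mem_coe, hF]
    rfl
  rw [h1]
  exact ⟨F.finite_toSet, by rw [Set.ncard_coe_finset]; exact hFc⟩

theorem dist_le_length {e : ℕ} {V : Type} {G : SimpleGraph V} (hG : G.Connected) {Φ : W e → V}
    (hadj : ∀ u v, (TW e).Adj u v ↔ G.Adj (Φ u) (Φ v)) (u : W e) :
    G.dist (Φ []) (Φ u) ≤ u.length := by
  induction u with
  | nil =>
    rw [SimpleGraph.dist_self]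
    exact Nat.zero_le _
  | cons a u ih =>
    have h1 : G.Adj (Φ u) (Φ (a :: u)) := (hadj _ _).1 (Or.inr ⟨a, rfl⟩)
    have h2 := hG.dist_triangle (u := Φ []) (v := Φ u) (w := Φ (a :: u))
    have h3 : G.dist (Φ u) (Φ (a :: u)) = 1 := SimpleGraph.dist_eq_one_iff_adj.2 h1
    rw [List.length_cons]
    omega

theorem s_dens : S_DENS := by
  intro e V G Φ M hT hdeg hinj hadj hM o
  have hG : G.Connected := hT.connected
  choose q hq1 hq2 using exists_zero e M hM
  set D₀ := G.dist o (Φ []) with hD₀
  -- many points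
  have hlow : ∀ k : ℕ, (e + 2) ^ k ≤
      ((Φ '' {u | st e M u = 0}) ∩ ball G o (k + M + D₀)).ncard := by
    intro k
    let g : (Fin k → Fin (e + 2)) → V := fun f => Φ (q (List.ofFn f) ++ List.ofFn f)
    have hg : Function.Injective g := by
      intro f f' h
      have h1 := hinj h
      have h2 := (List.append_inj' h1 (by rw [List.length_ofFn, List.length_ofFn])).2
      exact List.ofFn_injective h2
    have hsub : g '' Set.univ ⊆ (Φ '' {u | st e M u = 0}) ∩ ball G o (k + M + D₀) := by
      rintro _ ⟨f, -, rfl⟩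
      refine ⟨⟨_, hq2 _, rfl⟩, ?_⟩
      change G.dist o (Φ _) ≤ k + M + D₀
      have h1 := hG.dist_triangle (u := o) (v := Φ []) (w := Φ (q (List.ofFn f) ++ List.ofFn f))
      have h2 := dist_le_length hG hadj (q (List.ofFn f) ++ List.ofFn f)
      have h3 := hq1 (List.ofFn f)
      rw [List.length_append, List.length_ofFn] at h2
      omega
    have h1 := Set.ncard_le_ncard hsub ((ball_bound hG e hdeg o _).1.subset Set.inter_subset_right)
    rw [Set.ncard_image_of_injective _ hg, Set.ncard_univ, Nat.card_eq_fintype_card,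
      Fintype.card_fun, Fintype.card_fin, Fintype.card_fin] at h1
    exact h1
  -- the ratio
  have hpos : (0 : ℝ) < 1 / (4 * ((e : ℝ) + 2) ^ (M + D₀)) := by positivity
  refine lt_of_lt_of_le hpos (le_liminf_of_le ?_ ?_)
  · refine isCoboundedUnder_ge_of_le atTop (x := 1) fun n => ?_
    refine div_le_one_of_le₀ ?_ (Nat.cast_nonneg _)
    exact_mod_cast Set.ncard_le_ncard Set.inter_subset_right (ball_bound hG e hdeg o n).1
  · filter_upwards [eventually_ge_atTop (M + D₀)] with n hn
    obtain ⟨k, rfl⟩ := Nat.exists_eq_add_of_le hn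
    have h1 := hlow k
    have h2 := (ball_bound hG e hdeg o (M + D₀ + k)).2
    have h3 : k + M + D₀ = M + D₀ + k := by ring
    rw [h3] at h1
    have hb : 0 < (ball G o (M + D₀ + k)).ncard :=
      (Set.ncard_pos (ball_bound hG e hdeg o _).1).2 ⟨o, by
        change G.dist o o ≤ _
        rw [SimpleGraph.dist_self]
        exact Nat.zero_le _⟩
    rw [div_le_div_iff₀ (by positivity) (by exact_mod_cast hb), one_mul]
    have h4 : ((ball G o (M + D₀ + k)).ncard : ℝ) ≤ 4 * ((e : ℝ) + 2) ^ (M + D₀ + k) := by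
      exact_mod_cast h2
    have h5 : ((e : ℝ) + 2) ^ k ≤
        (((Φ '' {u | st e M u = 0}) ∩ ball G o (M + D₀ + k)).ncard : ℝ) := by
      exact_mod_cast h1
    refine h4.trans ?_
    rw [pow_add]
    calc 4 * (((e : ℝ) + 2) ^ (M + D₀) * ((e : ℝ) + 2) ^ k) =
        ((e : ℝ) + 2) ^ k * (4 * ((e : ℝ) + 2) ^ (M + D₀)) := by ring
      _ ≤ _ := mul_le_mul_of_nonneg_right h5 (by positivity)

end Pool.Agent.H400.SF
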